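import Pool.Agent.H22.AN.TB3
import Pool.Agent.H80.AN.TargetsA

/-!
Row KST of the board allh_modules: the three scale inequality, standard plane.
-/

set_option autoImplicit false

namespace Pool.Agent.H19.AN.KST

open MeasureTheory Metric Set Filter Topology Pool.Agent.H87.SN Pool.Agent.H87.SH Pool.Agent.H87.AX
open Pool.Agent.H22.AN
open scoped ContDiff RealInnerProductSpace ENNReal

noncomputable section

theorem rho_nonneg {d : ℕ} (x : V d) : 0 ≤ rho x := Real.sqrt_nonneg _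

theorem continuous_rho {d : ℕ} : Continuous (rho : V d → ℝ) := by
  unfold rho
  fun_prop

theorem norm_sq_V {d : ℕ} (x : V d) : ‖x‖ ^ 2 = x 0 ^ 2 + x 1 ^ 2 + ‖zp x‖ ^ 2 := by
  rw [EuclideanSpace.norm_sq_eq, EuclideanSpace.norm_sq_eq, Fin.sum_univ_succ, Fin.sum_univ_succ]
  have h2 : ∑ i : Fin d, ‖(zp x) i‖ ^ 2 = ∑ i : Fin d, ‖x i.succ.succ‖ ^ 2 :=
    Finset.sum_congr rfl fun i _ => rfl
  rw [h2]
  simp only [Real.norm_eq_abs, sq_abs]
  have h3 : x (Fin.succ 0) = x 1 := rfl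
  rw [h3]
  ring

theorem rho_sq {d : ℕ} (x : V d) : rho x ^ 2 = x 0 ^ 2 + x 1 ^ 2 := by
  unfold rho
  exact Real.sq_sqrt (by positivity)

theorem rho_le_norm {d : ℕ} (x : V d) : rho x ≤ ‖x‖ := by
  refine le_of_sq_le_sq ?_ (norm_nonneg _)
  rw [rho_sq, norm_sq_V]
  have := sq_nonneg ‖zp x‖
  linarith

theorem nsq_nonneg {n m : ℕ} (L : E n →L[ℝ] E m) : 0 ≤ nsq L := by
  unfold nsq
  positivity

theorem bb_bd (d : ℕ) : 1 ≤ bb d ∧ bb d ≤ 2 := by
  have h0 : (0 : ℝ) < d + 1 := by positivity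
  have h1 : (0 : ℝ) ≤ d := by positivity
  unfold bb
  rw [le_div_iff₀ h0, div_le_iff₀ h0]
  constructor <;> linarith

/-- Upper bound of the power. -/
theorem DD_pow_le {d : ℕ} {σ : ℝ} (hσ : 0 < σ) (x : V d) :
    DD σ x ^ (-(bb d / 2 + 1)) ≤ (σ ^ 2) ^ (-(bb d / 2 + 1)) := by
  have h1 : σ ^ 2 ≤ DD σ x := by
    unfold DD
    have h2 := sq_nonneg (x 0)
    have h3 := sq_nonneg (x 1)
    have h4 : 0 ≤ cc d ^ 2 * (max 0 (‖zp x‖ ^ 2 - 1 / 256)) ^ 2 := by positivity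
    linarith
  have h2 := (bb_bd d).1
  exact Real.rpow_le_rpow_of_nonpos (by positivity) h1 (by linarith)

/-- Lower bound of the power near the centre. -/
theorem DD_pow_ge {d : ℕ} {σ : ℝ} (hσ : 0 < σ) {x : V d} (hx : ‖x‖ < 1 / 16)
    (hr : rho x < 10 * σ) :
    (10201 : ℝ)⁻¹ * (σ ^ 2) ^ (-(bb d / 2 + 1)) ≤ DD σ x ^ (-(bb d / 2 + 1)) := by
  have hz : ‖zp x‖ ^ 2 ≤ 1 / 256 := by
    have h2 := norm_sq_V x
    have h3 := sq_nonneg (x 0)
    have h4 := sq_nonneg (x 1)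
    have h5 : ‖x‖ ^ 2 ≤ (1 / 16) ^ 2 := by gcongr
    linarith
  have hDD : DD σ x = σ ^ 2 + rho x ^ 2 := by
    unfold DD
    rw [max_eq_left (by linarith), rho_sq]
    ring
  have hr2 : rho x ^ 2 ≤ (10 * σ) ^ 2 := by
    have := rho_nonneg x
    gcongr
  have h1 : DD σ x ≤ 101 * σ ^ 2 := by
    rw [hDD]
    linarith
  have h0 : 0 < DD σ x := by
    rw [hDD]
    positivity
  have hb := bb_bd d
  have h2 : (101 * σ ^ 2) ^ (-(bb d / 2 + 1)) ≤ DD σ x ^ (-(bb d / 2 + 1)) :=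
    Real.rpow_le_rpow_of_nonpos h0 h1 (by linarith)
  refine le_trans ?_ h2
  rw [Real.mul_rpow (by norm_num) (by positivity)]
  refine mul_le_mul_of_nonneg_right ?_ (by positivity)
  have h3 : (101 : ℝ) ^ (-2 : ℝ) ≤ (101 : ℝ) ^ (-(bb d / 2 + 1)) :=
    Real.rpow_le_rpow_of_exponent_le (by norm_num) (by linarith)
  refine le_trans (le_of_eq ?_) h3
  rw [Real.rpow_neg (by norm_num)]
  norm_num

theorem Jm_eq {d : ℕ} (x : V d) : Jm d x = (- x 1) • bv 0 + (x 0) • bv 1 := by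
  ext i
  show (if (i : ℕ) = 0 then - x 1 else if (i : ℕ) = 1 then x 0 else 0) =
    (- x 1) * (bv 0 : V d) i + (x 0) * (bv 1 : V d) i
  unfold bv
  unfold EuclideanSpace.single
  rw [PiLp.single_apply, PiLp.single_apply]
  have h01 : (0 : Fin (d + 2)) ≠ 1 := by simp
  by_cases h0 : i = 0
  · subst h0
    simp
  · by_cases h1 : i = 1
    · subst h1
      simp
    · have e0 : (i : ℕ) ≠ 0 := fun h => h0 (Fin.ext h)
      have e1 : (i : ℕ) ≠ 1 := fun h => h1 (Fin.ext (by rw [h]; simp))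
      simp [h0, h1, e1]

/-- The derivative in the direction of the rotation. -/
theorem GJ_le {d m : ℕ} (G : V d →L[ℝ] E m) (x : V d) : ‖G (Jm d x)‖ ^ 2 ≤ rho x ^ 2 * nsq G := by
  rw [Jm_eq, map_add, map_smul, map_smul, rho_sq]
  have h1 : ‖(- x 1) • G (bv 0) + (x 0) • G (bv 1)‖ ≤
      |x 1| * ‖G (bv 0)‖ + |x 0| * ‖G (bv 1)‖ := by
    refine (norm_add_le _ _).trans ?_
    rw [norm_smul, norm_smul, Real.norm_eq_abs, Real.norm_eq_abs, abs_neg]
  have h2 : ‖G (bv 0)‖ ^ 2 + ‖G (bv 1)‖ ^ 2 ≤ nsq G := by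
    unfold nsq
    rw [Fin.sum_univ_succ, Fin.sum_univ_succ]
    have h3 : 0 ≤ ∑ i : Fin d, ‖G (bv (Fin.succ (Fin.succ i)))‖ ^ 2 := by positivity
    have h4 : ‖G (bv (Fin.succ 0))‖ ^ 2 = ‖G (bv 1)‖ ^ 2 := rfl
    linarith
  have h3 : (|x 1| * ‖G (bv 0)‖ + |x 0| * ‖G (bv 1)‖) ^ 2 ≤
      (x 0 ^ 2 + x 1 ^ 2) * (‖G (bv 0)‖ ^ 2 + ‖G (bv 1)‖ ^ 2) := by
    rw [← sq_abs (x 0), ← sq_abs (x 1)]
    nlinarith [sq_nonneg (|x 1| * ‖G (bv 1)‖ - |x 0| * ‖G (bv 0)‖)]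
  calc ‖(- x 1) • G (bv 0) + (x 0) • G (bv 1)‖ ^ 2
      ≤ (|x 1| * ‖G (bv 0)‖ + |x 0| * ‖G (bv 1)‖) ^ 2 := by gcongr
    _ ≤ (x 0 ^ 2 + x 1 ^ 2) * (‖G (bv 0)‖ ^ 2 + ‖G (bv 1)‖ ^ 2) := h3
    _ ≤ (x 0 ^ 2 + x 1 ^ 2) * nsq G := by gcongr

/-- The powers of the scales. -/
theorem powers (d : ℕ) {σ h : ℝ} (hσ : 0 < σ) (hh : 0 < h) (hle : h ≤ σ) :
    (σ ^ 2) ^ (-(bb d / 2 + 1)) * σ ^ bb d = (σ ^ 2)⁻¹ ∧
    h ^ bb d / (σ ^ (2 * bb d) * h ^ 2) * σ ^ bb d = h ^ bb d / (σ ^ bb d * h ^ 2) ∧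
    (σ ^ 2)⁻¹ ≤ h ^ bb d / (σ ^ bb d * h ^ 2) := by
  have hsb : 0 < σ ^ bb d := Real.rpow_pos_of_pos hσ _
  have hhb : 0 < h ^ bb d := Real.rpow_pos_of_pos hh _
  refine ⟨?_, ?_, ?_⟩
  · rw [← Real.rpow_natCast σ 2, ← Real.rpow_mul hσ.le, ← Real.rpow_add hσ, ← Real.rpow_neg hσ.le]
    congr 1
    push_cast
    ring
  · rw [two_mul, Real.rpow_add hσ]
    field_simp
  · rw [inv_eq_one_div, div_le_div_iff₀ (by positivity) (by positivity), one_mul]
    have hb := (bb_bd d).2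
    have h1 : h ^ (2 - bb d) ≤ σ ^ (2 - bb d) := Real.rpow_le_rpow hh.le hle (by linarith)
    have e1 : h ^ 2 = h ^ bb d * h ^ (2 - bb d) := by
      rw [← Real.rpow_add hh, ← Real.rpow_natCast h 2]
      congr 1
      push_cast
      ring
    have e2 : σ ^ 2 = σ ^ bb d * σ ^ (2 - bb d) := by
      rw [← Real.rpow_add hσ, ← Real.rpow_natCast σ 2]
      congr 1
      push_cast
      ring
    rw [e1, e2]
    calc σ ^ bb d * (h ^ bb d * h ^ (2 - bb d)) = (σ ^ bb d * h ^ bb d) * h ^ (2 - bb d) := by ring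
      _ ≤ (σ ^ bb d * h ^ bb d) * σ ^ (2 - bb d) := by gcongr
      _ = h ^ bb d * (σ ^ bb d * σ ^ (2 - bb d)) := by ring

theorem pf_KST (hPZ : T_PZ) (hAZ : T_AZ) (hWTS : T_WTS) (hCUT : Pool.Agent.H87.SN.T_CUT)
    (hMUF : T_MUF) : T_KST := by
  intro d L hd hL0
  obtain ⟨ζ, B, hζC, hζ01, hζrad, hζ1, hζ0, hB0, hζB⟩ :=
    hCUT (d + 2) (1 / 8) (1 / 4) (by norm_num) (by norm_num)
  have hζ : Cz ζ B := ⟨hζC.of_le (by exact_mod_cast le_top), hζ01, hζrad, hζ1, hζ0, hζB⟩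
  obtain ⟨C1, hC1, hPZ'⟩ := hPZ d ζ B hd hζ
  obtain ⟨δ, C2, hδ, hC2, hAZ'⟩ := hAZ d L B ζ hd hL0 hζ
  obtain ⟨C, hC⟩ : ∃ C : ℝ, C = 10201 * (2 * C1 + 2 * (C1 * C2) + C1) := ⟨_, rfl⟩
  have hC0 : 0 ≤ C := by rw [hC]; positivity
  refine ⟨δ, C, hδ, hC0, ?_⟩
  intro m Λ ε U u G hSM σ h hh h4 hσ80 hreg
  have hσ0 : 0 < σ := by linarith
  obtain ⟨hetC, hDD, het0, -, hkapf, -⟩ := hWTS d hd σ hσ0
  have hmuf := (hMUF d m G hSM.gd.memG).2.2.2.2.1
  have hn0 : ∀ x, 0 ≤ nsq (G x) := fun x => nsq_nonneg _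
  have hr0 : ∀ x : V d, 0 ≤ rho x := rho_nonneg
  have hbb := bb_bd d
  -- the sets
  obtain ⟨A10, hA10⟩ : ∃ A : Set (V d), A = {x | x ∈ ball (0 : V d) (1 / 16) ∧ rho x < 10 * σ} :=
    ⟨_, rfl⟩
  obtain ⟨b4, hb4⟩ : ∃ A : Set (V d), A = ball (0 : V d) (1 / 4) := ⟨_, rfl⟩
  obtain ⟨N4, hN4⟩ : ∃ A : Set (V d), A = {x | x ∈ ball (0 : V d) (1 / 4) ∧ rho x < 2 * h} :=
    ⟨_, rfl⟩
  obtain ⟨S4, hS4⟩ : ∃ A : Set (V d), A = {x | x ∈ ball (0 : V d) (1 / 4) ∧ 2 * h ≤ rho x} :=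
    ⟨_, rfl⟩
  rw [← hA10, ← hN4, ← hb4]
  have hb4m : MeasurableSet b4 := by rw [hb4]; exact measurableSet_ball
  have hA10m : MeasurableSet A10 := by
    rw [hA10]
    exact measurableSet_ball.inter (isOpen_lt continuous_rho continuous_const).measurableSet
  have hN4m : MeasurableSet N4 := by
    rw [hN4]
    exact measurableSet_ball.inter (isOpen_lt continuous_rho continuous_const).measurableSet
  have hS4m : MeasurableSet S4 := by
    rw [hS4]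
    exact measurableSet_ball.inter (isClosed_le continuous_const continuous_rho).measurableSet
  have hb42 : b4 ⊆ ball (0 : V d) 2 := by
    rw [hb4]
    exact ball_subset_ball (by norm_num)
  have hA10b4 : A10 ⊆ b4 := by
    rw [hA10, hb4]
    exact fun x hx => ball_subset_ball (by norm_num) hx.1
  have hN4b4 : N4 ⊆ b4 := by
    rw [hN4, hb4]
    exact fun x hx => hx.1
  have hS4b4 : S4 ⊆ b4 := by
    rw [hS4, hb4]
    exact fun x hx => hx.1
  have hrm : Measurable (fun x : V d => rho x ^ 2) := (continuous_rho.pow 2).measurable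
  have hr1 : ∀ x ∈ b4, 0 ≤ rho x ^ 2 ∧ rho x ^ 2 ≤ 1 := by
    intro x hx
    rw [hb4] at hx
    have h1 := rho_le_norm x
    have h2 := mem_ball_zero_iff.mp hx
    have h3 := rho_nonneg x
    exact ⟨sq_nonneg _, by nlinarith⟩
  have hA := hmuf _ A10 1 hrm hA10m (hA10b4.trans hb42) (fun x hx => hr1 x (hA10b4 hx))
  have hb := hmuf _ b4 1 hrm hb4m hb42 hr1
  have hN := hmuf _ N4 1 hrm hN4m (hN4b4.trans hb42) (fun x hx => hr1 x (hN4b4 hx))
  obtain ⟨IA, hIA⟩ : ∃ I, I = ∫ x in A10, rho x ^ 2 * nsq (G x) := ⟨_, rfl⟩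
  obtain ⟨Ib, hIb⟩ : ∃ I, I = ∫ x in b4, rho x ^ 2 * nsq (G x) := ⟨_, rfl⟩
  obtain ⟨IN, hIN⟩ : ∃ I, I = ∫ x in N4, rho x ^ 2 * nsq (G x) := ⟨_, rfl⟩
  have hIA0 : 0 ≤ IA := by
    rw [hIA]; exact integral_nonneg fun x => mul_nonneg (sq_nonneg _) (hn0 x)
  have hIb0 : 0 ≤ Ib := by
    rw [hIb]; exact integral_nonneg fun x => mul_nonneg (sq_nonneg _) (hn0 x)
  have hIN0 : 0 ≤ IN := by
    rw [hIN]; exact integral_nonneg fun x => mul_nonneg (sq_nonneg _) (hn0 x)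
  have hV2 : V2 G (1 / 4) = Ib := by
    rw [hIb, hb4]
    rfl
  obtain ⟨p, hp⟩ : ∃ p : ℝ, p = (σ ^ 2) ^ (-(bb d / 2 + 1)) := ⟨_, rfl⟩
  have hp0 : 0 < p := by rw [hp]; positivity
  -- the weight
  have hkap0 : ∀ x, 0 ≤ kap (et (d := d) σ) x := by
    intro x
    rw [hkapf x]
    have h1 := hDD x
    have h2 : 0 ≤ bb d := by linarith
    positivity
  have hkapc : Continuous (kap (et (d := d) σ)) := by
    unfold kap
    exact ((hetC.continuous_fderiv one_ne_zero).clm_apply (Pm d).continuous).neg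
  have hkaple : ∀ x, kap (et (d := d) σ) x ≤ 2 * p * rho x ^ 2 := by
    intro x
    rw [hkapf x]
    have h1 := mul_le_mul_of_nonneg_left (DD_pow_le hσ0 x) (sq_nonneg (rho x))
    rw [← hp] at h1
    have h2 : 0 ≤ rho x ^ 2 * p := by positivity
    have hb0 : 0 ≤ bb d := by linarith
    calc bb d * (rho x ^ 2 * DD σ x ^ (-(bb d / 2 + 1))) ≤ bb d * (rho x ^ 2 * p) := by gcongr
      _ ≤ 2 * (rho x ^ 2 * p) := by gcongr; exact hbb.2
      _ = _ := by ring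
  have hkapge : ∀ x ∈ A10, ((10201 : ℝ)⁻¹ * p) * rho x ^ 2 ≤ kap (et (d := d) σ) x := by
    intro x hx
    rw [hA10] at hx
    rw [hkapf x]
    have h1 := mul_le_mul_of_nonneg_left (DD_pow_ge hσ0 (mem_ball_zero_iff.mp hx.1) hx.2)
      (sq_nonneg (rho x))
    rw [← hp] at h1
    have h3 : 0 ≤ rho x ^ 2 * DD σ x ^ (-(bb d / 2 + 1)) := by
      have := hDD x
      positivity
    calc ((10201 : ℝ)⁻¹ * p) * rho x ^ 2 = rho x ^ 2 * ((10201 : ℝ)⁻¹ * p) := by ring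
      _ ≤ 1 * (rho x ^ 2 * DD σ x ^ (-(bb d / 2 + 1))) := by rw [one_mul]; exact h1
      _ ≤ bb d * (rho x ^ 2 * DD σ x ^ (-(bb d / 2 + 1))) :=
        mul_le_mul_of_nonneg_right hbb.1 h3
  have hζcont : Continuous ζ := hζC.continuous
  have hζsq : ∀ x, ζ x ^ 2 ≤ 1 := fun x => pow_le_one₀ (hζ01 x).1 (hζ01 x).2
  -- integrability of the left side of PZ
  obtain ⟨f, hf⟩ : ∃ f : V d → ℝ, f = fun x => ζ x ^ 2 * kap (et σ) x := ⟨_, rfl⟩
  have hfx : ∀ x, f x = ζ x ^ 2 * kap (et σ) x := fun x => by rw [hf]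
  have hfm : Measurable f := by
    rw [hf]
    exact ((hζcont.pow 2).mul hkapc).measurable
  have hfb : ∀ x ∈ ball (0 : V d) 2, 0 ≤ f x ∧ f x ≤ 8 * p := by
    intro x hx
    have h1 := hkap0 x
    have h2 := hkaple x
    have h4 : rho x ^ 2 ≤ 4 := by
      have h5 := rho_le_norm x
      have h6 := mem_ball_zero_iff.mp hx
      have h7 := rho_nonneg x
      nlinarith
    refine ⟨by rw [hfx]; positivity, ?_⟩
    rw [hfx]
    calc ζ x ^ 2 * kap (et σ) x ≤ 1 * kap (et σ) x := mul_le_mul_of_nonneg_right (hζsq x) h1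
      _ ≤ 2 * p * rho x ^ 2 := by linarith
      _ ≤ 2 * p * 4 := mul_le_mul_of_nonneg_left h4 (by positivity)
      _ = 8 * p := by ring
  have hIf : IntegrableOn (fun x => f x * nsq (G x)) (ball (0 : V d) 2) :=
    (hmuf f (ball (0 : V d) 2) (8 * p) hfm measurableSet_ball subset_rfl hfb).1
  -- left side
  have hleft : ((10201 : ℝ)⁻¹ * p) * IA ≤
      ∫ x in ball (0 : V d) 2, ζ x ^ 2 * (kap (et σ) x * nsq (G x)) := by
    have h1 : ∫ x in A10, f x * nsq (G x) ≤ ∫ x in ball (0 : V d) 2, f x * nsq (G x) := by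
      refine setIntegral_mono_set hIf ?_ ?_
      · filter_upwards [ae_restrict_mem measurableSet_ball] with x hx
        exact mul_nonneg (hfb x hx).1 (hn0 x)
      · exact (LE.le.eventuallyLE (hA10b4.trans hb42))
    have h2 : ((10201 : ℝ)⁻¹ * p) * IA ≤ ∫ x in A10, f x * nsq (G x) := by
      rw [hIA, ← integral_const_mul]
      refine setIntegral_mono_on (hA.1.const_mul _) (hIf.mono_set (hA10b4.trans hb42)) hA10m ?_
      intro x hx
      have hx' := hx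
      rw [hA10] at hx'
      have h3 : ζ x = 1 := hζ1 x (by
        have := mem_ball_zero_iff.mp hx'.1
        linarith)
      rw [hfx, h3, one_pow, one_mul, ← mul_assoc]
      exact mul_le_mul_of_nonneg_right (hkapge x hx) (hn0 x)
    refine h2.trans (h1.trans (le_of_eq ?_))
    refine integral_congr_ae (Eventually.of_forall fun x => ?_)
    show f x * nsq (G x) = ζ x ^ 2 * (kap (et σ) x * nsq (G x))
    rw [hfx]
    ring
  -- the angular term
  have hGJ : ∀ x : V d, (rho x ^ 2)⁻¹ * ‖G x (Jm d x)‖ ^ 2 ≤ nsq (G x) := by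
    intro x
    rcases (hr0 x).eq_or_lt with h1 | h1
    · rw [← h1]
      simp [hn0 x]
    · rw [inv_mul_le_iff₀ (by positivity)]
      exact GJ_le (G x) x
  obtain ⟨g, hg⟩ : ∃ g : V d → ℝ,
      g = fun x => ζ x ^ 2 * (kap (et σ) x * ((rho x ^ 2)⁻¹ * ‖G x (Jm d x)‖ ^ 2)) := ⟨_, rfl⟩
  have hgx : ∀ x, g x = ζ x ^ 2 * (kap (et σ) x * ((rho x ^ 2)⁻¹ * ‖G x (Jm d x)‖ ^ 2)) :=
    fun x => by rw [hg]
  have hg0 : ∀ x, 0 ≤ g x := by
    intro x
    have := hkap0 x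
    rw [hgx]
    positivity
  have hgle : ∀ x, g x ≤ f x * nsq (G x) := by
    intro x
    have h1 := hkap0 x
    rw [hgx, hfx, mul_assoc]
    exact mul_le_mul_of_nonneg_left (mul_le_mul_of_nonneg_left (hGJ x) h1) (sq_nonneg _)
  have hgi : IntegrableOn g (ball (0 : V d) 2) := by
    refine Integrable.mono' hIf ?_ ?_
    · have h1 : AEStronglyMeasurable G (volume.restrict (ball (0 : V d) 2)) := hSM.gd.memG.1
      have h2 : AEStronglyMeasurable (fun x => G x (Jm d x))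
          (volume.restrict (ball (0 : V d) 2)) :=
        (isBoundedBilinearMap_apply (𝕜 := ℝ) (E := V d) (F := E m)).continuous.comp_aestronglyMeasurable
          (h1.prodMk (Jm d).continuous.aestronglyMeasurable)
      have h3 : AEStronglyMeasurable (fun x : V d => ζ x ^ 2)
          (volume.restrict (ball (0 : V d) 2)) := (hζcont.pow 2).aestronglyMeasurable
      have h4 : AEStronglyMeasurable (fun x : V d => (rho x ^ 2)⁻¹)
          (volume.restrict (ball (0 : V d) 2)) := hrm.inv.aestronglyMeasurable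
      rw [hg]
      exact h3.mul (hkapc.aestronglyMeasurable.mul (h4.mul (h2.norm.pow 2)))
    · refine Eventually.of_forall fun x => ?_
      rw [Real.norm_eq_abs, abs_of_nonneg (hg0 x)]
      exact hgle x
  obtain ⟨Q, hQ⟩ : ∃ Q, Q = h ^ bb d / (σ ^ bb d * h ^ 2) := ⟨_, rfl⟩
  obtain ⟨Q2, hQ2⟩ : ∃ Q, Q = h ^ bb d / (σ ^ (2 * bb d) * h ^ 2) := ⟨_, rfl⟩
  have hmid : ∫ x in ball (0 : V d) 2, g x ≤ 2 * p * IN + C2 * (Q2 * IN + Ib) := by
    have h1 : ∫ x in ball (0 : V d) 2, g x = ∫ x in b4, g x := by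
      refine setIntegral_eq_of_subset_of_forall_sdiff_eq_zero measurableSet_ball hb42 ?_
      intro x hx
      have h2 : ζ x = 0 := hζ0 x (by
        by_contra h3
        push Not at h3
        refine hx.2 ?_
        rw [hb4]
        exact mem_ball_zero_iff.mpr h3)
      rw [hgx, h2]
      ring
    have h2 : b4 = N4 ∪ S4 := by
      rw [hb4, hN4, hS4]
      ext x
      constructor
      · intro hx
        rcases lt_or_ge (rho x) (2 * h) with h3 | h3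
        · exact Or.inl ⟨hx, h3⟩
        · exact Or.inr ⟨hx, h3⟩
      · rintro (h3 | h3)
        · exact h3.1
        · exact h3.1
    have hdis : Disjoint N4 S4 := by
      rw [Set.disjoint_left, hN4, hS4]
      intro x h3 h4
      exact absurd h3.2 (not_lt.mpr h4.2)
    have h3 : ∫ x in b4, g x = (∫ x in N4, g x) + ∫ x in S4, g x := by
      rw [h2]
      exact setIntegral_union hdis hS4m (hgi.mono_set (hN4b4.trans hb42))
        (hgi.mono_set (hS4b4.trans hb42))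
    have h4 : ∫ x in N4, g x ≤ 2 * p * IN := by
      rw [hIN, ← integral_const_mul]
      refine setIntegral_mono_on (hgi.mono_set (hN4b4.trans hb42)) (hN.1.const_mul _) hN4m ?_
      intro x hx
      refine (hgle x).trans ?_
      rw [hfx, ← mul_assoc]
      refine mul_le_mul_of_nonneg_right ?_ (hn0 x)
      calc ζ x ^ 2 * kap (et σ) x ≤ 1 * kap (et σ) x :=
            mul_le_mul_of_nonneg_right (hζsq x) (hkap0 x)
        _ ≤ 2 * p * rho x ^ 2 := by linarith [hkaple x]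
    have h5 := hAZ' m Λ ε U u G hSM σ h hh (by assumption) (by linarith) hreg
    rw [← hS4, ← hN4, ← hQ2, hV2, ← hIN] at h5
    rw [h1, h3]
    refine add_le_add h4 ?_
    rw [hg]
    exact h5
  have hPZ2 := hPZ' m G hSM.gd.memG hSM.gd.stat σ hσ0 (by linarith)
  rw [hV2] at hPZ2
  have hPZ3 : ∫ x in ball (0 : V d) 2, ζ x ^ 2 * (kap (et σ) x * nsq (G x)) ≤
      C1 * (∫ x in ball (0 : V d) 2, g x) + C1 * Ib := by
    rw [hg]
    exact hPZ2
  obtain ⟨e1, e2, e3⟩ := powers d hσ0 hh (by linarith : h ≤ σ)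
  rw [← hp] at e1
  rw [← hQ2, ← hQ] at e2
  rw [← hQ] at e3
  obtain ⟨W, hW⟩ : ∃ W, W = σ ^ bb d := ⟨_, rfl⟩
  have hW0 : 0 < W := by rw [hW]; exact Real.rpow_pos_of_pos hσ0 _
  have hQ0 : 0 ≤ Q := le_trans (by positivity) e3
  rw [← hW] at e1 e2
  have hreal : (σ ^ 2)⁻¹ * IA ≤ C * (Q * IN + W * Ib) := by
    have h1 : ((10201 : ℝ)⁻¹ * p) * IA ≤
        C1 * (2 * p * IN + C2 * (Q2 * IN + Ib)) + C1 * Ib := by
      refine hleft.trans (hPZ3.trans ?_)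
      gcongr
    have h2 := mul_le_mul_of_nonneg_right h1 (show 0 ≤ 10201 * W by positivity)
    have h3 : ((10201 : ℝ)⁻¹ * p) * IA * (10201 * W) = (p * W) * IA := by ring
    have h4 : (C1 * (2 * p * IN + C2 * (Q2 * IN + Ib)) + C1 * Ib) * (10201 * W) =
        10201 * (2 * C1 * ((p * W) * IN) + C1 * C2 * ((Q2 * W) * IN) + C1 * C2 * (W * Ib) +
          C1 * (W * Ib)) := by ring
    rw [h3, h4, e1, e2] at h2
    have h5 : (σ ^ 2)⁻¹ * IN ≤ Q * IN := mul_le_mul_of_nonneg_right e3 hIN0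
    have h7 : 0 ≤ W * Ib := by positivity
    have h8 : 0 ≤ Q * IN := by positivity
    have h5' : 2 * C1 * ((σ ^ 2)⁻¹ * IN) ≤ 2 * C1 * (Q * IN) := by gcongr
    have h9 : 0 ≤ C1 * C2 * (Q * IN) := by positivity
    have h10 : 0 ≤ C1 * (Q * IN) := by positivity
    have h11 : 0 ≤ C1 * C2 * (W * Ib) := by positivity
    have h12 : 0 ≤ C1 * (W * Ib) := by positivity
    rw [hC]
    calc (σ ^ 2)⁻¹ * IA ≤ _ := h2
      _ ≤ 10201 * (2 * C1 * (Q * IN) + C1 * C2 * (Q * IN) + C1 * C2 * (W * Ib) + C1 * (W * Ib)) := by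
          gcongr
      _ ≤ _ := by linarith
  rw [hA.2, hb.2, hN.2, ← hIA, ← hIb, ← hIN, ← hQ, ← hW, ← ENNReal.ofReal_mul (by positivity),
    ← ENNReal.ofReal_mul hQ0, ← ENNReal.ofReal_mul hW0.le,
    ← ENNReal.ofReal_add (by positivity) (by positivity), ← ENNReal.ofReal_mul hC0]
  exact ENNReal.ofReal_le_ofReal hreal

end

end Pool.Agent.H19.AN.KST
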