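import Pool.Agent.H22.AN.TB3

/-!
Row LGE of the board allh_modules: geometry of a plane close to the standard plane.
-/

set_option autoImplicit false

namespace Pool.Agent.H19.AN.LGE

open MeasureTheory Metric Set Filter Topology Pool.Agent.H87.SN Pool.Agent.H87.SH Pool.Agent.H87.AX
open Pool.Agent.H22.AN
open scoped ContDiff RealInnerProductSpace ENNReal

/-- The triangle inequality in the plane. -/
theorem tri2 (a b c d e : ℝ) (he0 : 0 ≤ e) (he : (a - c) ^ 2 + (b - d) ^ 2 ≤ e ^ 2) :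
    Real.sqrt (a ^ 2 + b ^ 2) ≤ Real.sqrt (c ^ 2 + d ^ 2) + e := by
  obtain ⟨S, hS⟩ : ∃ S, S = Real.sqrt (c ^ 2 + d ^ 2) := ⟨_, rfl⟩
  have hS0 : 0 ≤ S := by rw [hS]; exact Real.sqrt_nonneg _
  have hS2 : S ^ 2 = c ^ 2 + d ^ 2 := by rw [hS]; exact Real.sq_sqrt (by positivity)
  have h1 : c * (a - c) + d * (b - d) ≤ S * e := by
    refine le_of_sq_le_sq ?_ (by positivity)
    have h2 : (c * (a - c) + d * (b - d)) ^ 2 ≤
        (c ^ 2 + d ^ 2) * ((a - c) ^ 2 + (b - d) ^ 2) := by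
      nlinarith [sq_nonneg (c * (b - d) - d * (a - c))]
    calc (c * (a - c) + d * (b - d)) ^ 2 ≤ (c ^ 2 + d ^ 2) * ((a - c) ^ 2 + (b - d) ^ 2) := h2
      _ ≤ (c ^ 2 + d ^ 2) * e ^ 2 := by gcongr
      _ = (S * e) ^ 2 := by rw [← hS2]; ring
  rw [← hS]
  refine Real.sqrt_le_iff.mpr ⟨by positivity, ?_⟩
  nlinarith

/-- The inequality of Bessel for two vectors. -/
theorem bessel {d : ℕ} {ν₁ ν₂ : V d} (h : ON ν₁ ν₂) (v : V d) :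
    ⟪v, ν₁⟫ ^ 2 + ⟪v, ν₂⟫ ^ 2 ≤ ‖v‖ ^ 2 := by
  obtain ⟨h1, h2, h3⟩ := h
  have h0 : 0 ≤ ‖v - ⟪v, ν₁⟫ • ν₁ - ⟪v, ν₂⟫ • ν₂‖ ^ 2 := by positivity
  have e1 : ⟪ν₁, ν₁⟫ = (1 : ℝ) := by rw [real_inner_self_eq_norm_sq, h1]; norm_num
  have e2 : ⟪ν₂, ν₂⟫ = (1 : ℝ) := by rw [real_inner_self_eq_norm_sq, h2]; norm_num
  have e3 : ⟪ν₂, ν₁⟫ = (0 : ℝ) := by rw [real_inner_comm, h3]
  rw [← real_inner_self_eq_norm_sq] at h0
  simp only [inner_sub_left, inner_sub_right, real_inner_smul_left, real_inner_smul_right] at h0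
  rw [e1, e2, e3, h3, real_inner_comm v ν₁, real_inner_comm v ν₂,
    real_inner_self_eq_norm_sq v] at h0
  nlinarith

/-- The distance to a plane is Lipschitz. -/
theorem dl_lip {d : ℕ} {a ν₁ ν₂ : V d} (h : ON ν₁ ν₂) (x y : V d) :
    Real.sqrt (dl a ν₁ ν₂ x) ≤ Real.sqrt (dl a ν₁ ν₂ y) + dist x y := by
  unfold dl
  refine tri2 _ _ _ _ _ dist_nonneg ?_
  rw [← inner_sub_left, ← inner_sub_left, sub_sub_sub_cancel_right, dist_eq_norm]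
  exact bessel h _

theorem zp_le {d : ℕ} (x : V d) : ‖zp x‖ ≤ ‖x‖ := by
  refine le_of_sq_le_sq ?_ (norm_nonneg _)
  rw [EuclideanSpace.norm_sq_eq, EuclideanSpace.norm_sq_eq, Fin.sum_univ_succ, Fin.sum_univ_succ]
  have h1 : ∀ i : Fin d, ‖(zp x) i‖ ^ 2 = ‖x i.succ.succ‖ ^ 2 := fun i => rfl
  have h2 : ∑ i : Fin d, ‖(zp x) i‖ ^ 2 = ∑ i : Fin d, ‖x i.succ.succ‖ ^ 2 :=
    Finset.sum_congr rfl fun i _ => h1 i
  rw [h2]
  have h3 : 0 ≤ ‖x 0‖ ^ 2 := by positivity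
  have h4 : 0 ≤ ‖x (Fin.succ 0)‖ ^ 2 := by positivity
  linarith

theorem hd_rho {d : ℕ} {y0 y1 ε₁ : ℝ} {s0 s1 : E d} (hε : |y0| + |y1| + ‖s0‖ + ‖s1‖ ≤ ε₁)
    (x : V d) (hx : x ∈ ball (0 : V d) 1) :
    (y0 + ⟪s0, zp x⟫) ^ 2 + (y1 + ⟪s1, zp x⟫) ^ 2 ≤ ε₁ ^ 2 := by
  have hz : ‖zp x‖ ≤ 1 := (zp_le x).trans (mem_ball_zero_iff.mp hx).le
  have hb : ∀ (y : ℝ) (s : E d), |y + ⟪s, zp x⟫| ≤ |y| + ‖s‖ := by
    intro y s
    refine (abs_add_le _ _).trans ?_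
    have h1 : |⟪s, zp x⟫| ≤ ‖s‖ * ‖zp x‖ := abs_real_inner_le_norm _ _
    have h2 : ‖s‖ * ‖zp x‖ ≤ ‖s‖ * 1 := by gcongr
    linarith
  have h0 := hb y0 s0
  have h1 := hb y1 s1
  have p0 := abs_nonneg (y0 + ⟪s0, zp x⟫)
  have p1 := abs_nonneg (y1 + ⟪s1, zp x⟫)
  rw [← sq_abs (y0 + ⟪s0, zp x⟫), ← sq_abs (y1 + ⟪s1, zp x⟫)]
  have h3 : |y0 + ⟪s0, zp x⟫| + |y1 + ⟪s1, zp x⟫| ≤ ε₁ := by linarith
  nlinarith [mul_nonneg p0 p1]

theorem pf_LGE (hOCN : T_OCN) : T_LGE := by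
  intro d
  obtain ⟨C, hC0, hC⟩ := hOCN d
  refine ⟨C + 1, by linarith, ?_⟩
  intro m L Λ ε U u G hSM r₁ δ ε₁ y0 y1 s0 s1 a ν₁ ν₂ hr₁ hε₁ hON hnk hε hcmp
  have hen : ∀ x, 0 ≤ en u x := by
    intro x
    unfold en nsq
    positivity
  have hdl0 : ∀ x, 0 ≤ dl a ν₁ ν₂ x := fun x => by unfold dl; positivity
  have hone : ∀ x ∈ ball (0 : V d) 1, Real.sqrt (dl a ν₁ ν₂ x) ≤ rho x + ε₁ ∧
      rho x ≤ 3 / 2 * Real.sqrt (dl a ν₁ ν₂ x) + ε₁ := by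
    intro x hx
    have hb := hd_rho hε x hx
    constructor
    · refine (Real.sqrt_le_sqrt (hcmp x).1).trans ?_
      refine tri2 _ _ _ _ _ hε₁ ?_
      have e0 : x 0 - (y0 + ⟪s0, zp x⟫) - x 0 = - (y0 + ⟪s0, zp x⟫) := by ring
      have e1 : x 1 - (y1 + ⟪s1, zp x⟫) - x 1 = - (y1 + ⟪s1, zp x⟫) := by ring
      rw [e0, e1, neg_sq, neg_sq]
      exact hb
    · have h1 : rho x ≤ Real.sqrt (hd y0 y1 s0 s1 x) + ε₁ := by
        refine tri2 _ _ _ _ _ hε₁ ?_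
        have e0 : x 0 - (x 0 - (y0 + ⟪s0, zp x⟫)) = y0 + ⟪s0, zp x⟫ := by ring
        have e1 : x 1 - (x 1 - (y1 + ⟪s1, zp x⟫)) = y1 + ⟪s1, zp x⟫ := by ring
        rw [e0, e1]
        exact hb
      have h2 : Real.sqrt (hd y0 y1 s0 s1 x) ≤ 3 / 2 * Real.sqrt (dl a ν₁ ν₂ x) := by
        refine Real.sqrt_le_iff.mpr ⟨by positivity, ?_⟩
        rw [mul_pow, Real.sq_sqrt (hdl0 x)]
        have := (hcmp x).2
        have := hdl0 x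
        linarith
      linarith
  refine ⟨hone, ?_, ?_⟩
  · intro t ht1 ht2 ht3 x hx hdx
    have ht0 : 0 < t := by linarith
    have hx' : ‖x‖ < 1 / 2 := mem_ball_zero_iff.mp hx
    have hsub : ball x t ⊆ ball (0 : V d) 1 := by
      refine ball_subset_ball' ?_
      rw [dist_zero_right]
      linarith
    have h2t : 2 * t ≤ Real.sqrt (dl a ν₁ ν₂ x) := Real.le_sqrt_of_sq_le hdx
    have hy : ∀ y ∈ ball x t, t / 2 ≤ rho y := by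
      intro y hy
      have h3 := (hone y (hsub hy)).1
      have h4 := dl_lip (a := a) hON x y
      rw [dist_comm] at h4
      have h5 := mem_ball.mp hy
      linarith
    have h6 := (hC m L Λ ε U u G hSM r₁ δ 1 hr₁ (by norm_num) hnk).2 x t ht0 (by linarith) hsub hy
      (by linarith)
    have : 0 ≤ δ ^ 2 := by positivity
    linarith
  · intro t ht1 ht2 x hx hdx
    have ht0 : 0 < t := by linarith
    have hx1 : x ∈ ball (0 : V d) 1 := ball_subset_ball (by norm_num) hx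
    have h1 : t / 2 < Real.sqrt (dl a ν₁ ν₂ x) := Real.lt_sqrt_of_sq_lt hdx
    have h2 := (hone x hx1).1
    have h3 : r₁ ≤ rho x := by linarith
    obtain ⟨hU, h4⟩ := hnk x hx1 h3
    refine ⟨hU, ?_⟩
    have h5 : ε₁ ≤ rho x := by linarith
    have h6 : dl a ν₁ ν₂ x ≤ 4 * rho x ^ 2 := by
      have h7 : Real.sqrt (dl a ν₁ ν₂ x) ^ 2 ≤ (2 * rho x) ^ 2 := by
        have : 0 ≤ Real.sqrt (dl a ν₁ ν₂ x) := Real.sqrt_nonneg _
        gcongr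
        linarith
      rw [Real.sq_sqrt (hdl0 x)] at h7
      linarith
    calc dl a ν₁ ν₂ x * en u x ≤ (4 * rho x ^ 2) * en u x :=
          mul_le_mul_of_nonneg_right h6 (hen x)
      _ = 4 * (rho x ^ 2 * en u x) := by ring
      _ ≤ 4 * δ ^ 2 := by linarith

end Pool.Agent.H19.AN.LGE
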