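import Pool.Agent.H22.AN.TB3
import Pool.Agent.H80.AN.TargetsA

/-!
Row MA1 of the board allh_modules: masses of windows.
-/

set_option autoImplicit false

namespace Pool.Agent.H19.AN.MA1

open MeasureTheory Metric Set Filter Topology Pool.Agent.H87.SN Pool.Agent.H87.SH Pool.Agent.H87.AX
open Pool.Agent.H22.AN
open scoped ContDiff RealInnerProductSpace ENNReal

noncomputable section

theorem continuous_zp {d : ℕ} : Continuous (zp : V d → E d) := by
  unfold zp
  fun_prop

theorem nsq_nonneg {n m : ℕ} (L : E n →L[ℝ] E m) : 0 ≤ nsq L := by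
  unfold nsq
  positivity

theorem norm_bv {n : ℕ} (i : Fin n) : ‖(bv i : E n)‖ = 1 := by
  unfold bv
  simp

/-- The weighted integral. -/
def II {d m : ℕ} (G : V d → V d →L[ℝ] E m) (χ : V d → ℝ) (g : E d → ℝ) : ℝ :=
  ∫ x in ball (0 : V d) 2, χ x * g (zp x) * nsq (G x)

section

variable {d m : ℕ} {G : V d → V d →L[ℝ] E m} {χ : V d → ℝ}

theorem ii_int (hI : IntegrableOn (fun x => nsq (G x)) (ball (0 : V d) 2)) (hχ : Continuous χ)
    (hχ1 : ∀ x, |χ x| ≤ 1) (g : E d → ℝ) (hg : Continuous g) (K : ℝ) (hK : ∀ z, |g z| ≤ K) :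
    IntegrableOn (fun x => χ x * g (zp x) * nsq (G x)) (ball (0 : V d) 2) := by
  refine Integrable.bdd_mul (c := K) hI
    (hχ.mul (hg.comp continuous_zp)).aestronglyMeasurable ?_
  refine Filter.Eventually.of_forall fun x => ?_
  rw [Real.norm_eq_abs, abs_mul]
  calc |χ x| * |g (zp x)| ≤ 1 * K :=
        mul_le_mul (hχ1 x) (hK _) (abs_nonneg _) zero_le_one
    _ = K := one_mul _

/-- Finite sums. -/
theorem ii_sum (hI : IntegrableOn (fun x => nsq (G x)) (ball (0 : V d) 2)) (hχ : Continuous χ)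
    (hχ1 : ∀ x, |χ x| ≤ 1) (g : Fin d → E d → ℝ) (c : Fin d → ℝ) (hg : ∀ a, Continuous (g a))
    (K : ℝ) (hK : ∀ a z, |g a z| ≤ K) :
    II G χ (fun z => ∑ a, c a * g a z) = ∑ a, c a * II G χ (g a) := by
  unfold II
  simp_rw [← integral_const_mul]
  rw [← integral_finsetSum _ fun a _ => (ii_int hI hχ hχ1 (g a) (hg a) K (hK a)).const_mul (c a)]
  refine integral_congr_ae (Filter.Eventually.of_forall fun x => ?_)
  show χ x * (∑ a, c a * g a (zp x)) * nsq (G x) = ∑ a, c a * (χ x * g a (zp x) * nsq (G x))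
  rw [Finset.mul_sum, Finset.sum_mul]
  exact Finset.sum_congr rfl fun a _ => by ring

/-- The mean value inequality for a path of weights. -/
theorem path (hI : IntegrableOn (fun x => nsq (G x)) (ball (0 : V d) 2)) (hχ : Continuous χ)
    (hχ1 : ∀ x, |χ x| ≤ 1) (b b' : ℝ → E d → ℝ) (α β M : ℝ) (hαβ : α ≤ β)
    (O : Set ℝ) (hO : IsOpen O) (hsub : Icc α β ⊆ O)
    (hb : ∀ s ∈ O, Continuous (b s) ∧ Continuous (b' s) ∧ (∃ K, ∀ z, |b s z| ≤ K) ∧
      ∀ z, HasDerivAt (fun s => b s z) (b' s z) s)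
    (hK : ∀ s ∈ O, ∃ K, ∃ W ∈ 𝓝 s, ∀ s' ∈ W, ∀ z, |b' s' z| ≤ K)
    (hM : ∀ s ∈ Icc α β, |II G χ (b' s)| ≤ M) :
    |II G χ (b β) - II G χ (b α)| ≤ M * (β - α) := by
  have hder : ∀ s ∈ Icc α β, HasDerivAt (fun s => II G χ (b s)) (II G χ (b' s)) s := by
    intro s hs
    obtain ⟨K, W, hW, hKW⟩ := hK s (hsub hs)
    have hWO : W ∩ O ∈ 𝓝 s := Filter.inter_mem hW (hO.mem_nhds (hsub hs))
    obtain ⟨hbs, hbs', ⟨K1, hK1⟩, -⟩ := hb s (hsub hs)
    have h := hasDerivAt_integral_of_dominated_loc_of_deriv_le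
      (μ := volume.restrict (ball (0 : V d) 2)) (𝕜 := ℝ)
      (F := fun s x => χ x * b s (zp x) * nsq (G x))
      (F' := fun s x => χ x * b' s (zp x) * nsq (G x)) (bound := fun x => K * nsq (G x)) hWO
      ?_ (ii_int hI hχ hχ1 (b s) hbs K1 hK1) ?_ ?_ (hI.const_mul K) ?_
    · exact h.2
    · filter_upwards [hO.mem_nhds (hsub hs)] with s' hs'
      obtain ⟨h1, -, ⟨K2, hK2⟩, -⟩ := hb s' hs'
      exact (ii_int hI hχ hχ1 (b s') h1 K2 hK2).aestronglyMeasurable
    · exact ((hχ.mul (hbs'.comp continuous_zp)).aestronglyMeasurable).mul hI.aestronglyMeasurable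
    · refine Filter.Eventually.of_forall fun x s' hs' => ?_
      rw [Real.norm_eq_abs, abs_mul, abs_mul, abs_of_nonneg (nsq_nonneg (G x))]
      refine mul_le_mul_of_nonneg_right ?_ (nsq_nonneg _)
      calc |χ x| * |b' s' (zp x)| ≤ 1 * K :=
            mul_le_mul (hχ1 x) (hKW s' hs'.1 _) (abs_nonneg _) zero_le_one
        _ = K := one_mul _
    · refine Filter.Eventually.of_forall fun x s' hs' => ?_
      exact (((hb s' hs'.2).2.2.2 (zp x)).const_mul (χ x)).mul_const (nsq (G x))
  have h := (convex_Icc α β).norm_image_sub_le_of_norm_hasDerivWithin_le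
    (f := fun s => II G χ (b s)) (f' := fun s => II G χ (b' s)) (C := M) (x := α) (y := β)
    (fun s hs => (hder s hs).hasDerivWithinAt) (fun s hs => hM s hs)
    (left_mem_Icc.mpr hαβ) (right_mem_Icc.mpr hαβ)
  rw [Real.norm_eq_abs, Real.norm_eq_abs, abs_of_nonneg (sub_nonneg.mpr hαβ)] at h
  exact h

end

theorem pf_MA1 (hCNS : T_CNS) (hCHF : T_CHF) (hBWF : T_BWF) (hBWP : T_BWP) (hMUF : T_MUF) :
    T_MA1 := by
  intro d
  obtain ⟨Cn, hCn, hCNS⟩ := hCNS d
  obtain ⟨C0, -, hCHF'⟩ := hCHF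
  obtain ⟨-, C1, hC1, hBWF⟩ := hBWF d
  obtain ⟨C2, hC2, hBWP⟩ := hBWP d
  refine ⟨2 * (d * (Cn * C2)) + 2 * (d * (Cn * C1)), by positivity, ?_⟩
  intro m G hG hst h Z τ hh hh8 hτ hZ1 z₀ z₁ t t₁ hτt hτt₁ hz₀ hz₁
  have hZ0 : 0 < Z := by have := norm_nonneg z₀; linarith
  obtain ⟨hc1, -⟩ := hCNS m G hG hst h Z hh hh8 hZ0 hZ1
  have hI := ((hMUF d m G hG).2.2.2.1 (ball (0 : V d) 2) measurableSet_ball subset_rfl).1
  obtain ⟨hχC, hχb, -⟩ := hCHF' d h hh
  have hχ : Continuous (chh (d := d) h) := hχC.continuous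
  have hχ1 : ∀ x : V d, |chh h x| ≤ 1 := fun x => by
    rw [abs_of_nonneg (hχb x).1]
    exact (hχb x).2
  have hEz : 0 ≤ Ez G h Z := by
    unfold Ez
    refine integral_nonneg fun x => ?_
    unfold nzs
    positivity
  have hIn : 0 ≤ In G h Z := by
    unfold In
    exact integral_nonneg fun x => nsq_nonneg _
  obtain ⟨D, hD⟩ : ∃ D, D = 1 / (τ ^ (d + 2) * h) * (Ez G h Z + In G h Z) := ⟨_, rfl⟩
  have hτ1 : τ ≤ 1 := by have := norm_nonneg z₀; linarith
  have hD0 : 0 ≤ D := by rw [hD]; positivity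
  have h1h : 1 ≤ 1 / h := by rw [le_div_iff₀ hh]; linarith
  -- the bound of the conservation law
  have hcns : ∀ (φ : E d → ℝ) (B s C : ℝ) (a : Fin d), 0 ≤ C → τ ≤ s → s ≤ 1 → ContDiff ℝ 1 φ →
      (∀ z, Z ≤ ‖z‖ → φ z = 0) → 0 ≤ B → B ≤ 1 → (∀ z, |φ z| ≤ C / s ^ (d + 1)) →
      (∀ z, ‖fderiv ℝ φ z‖ ≤ C / s ^ (d + 2)) →
      B * |II G (chh h) (fun z => fderiv ℝ φ z (bv a))| ≤ Cn * C * D := by
    intro φ B s C a hC hs hs1 h1 h2 hB hB1 h3 h4
    have h5 := hc1 φ _ _ a h1 h2 h3 h4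
    have hs0 : 0 < s := by linarith
    have e1 : C / s ^ (d + 2) ≤ C * (1 / (τ ^ (d + 2) * h)) := by
      have : 1 / s ^ (d + 2) ≤ 1 / (τ ^ (d + 2) * h) := by
        refine one_div_le_one_div_of_le (by positivity) ?_
        calc τ ^ (d + 2) * h ≤ s ^ (d + 2) * 1 := by
              gcongr
              linarith
          _ = _ := mul_one _
      calc C / s ^ (d + 2) = C * (1 / s ^ (d + 2)) := by ring
        _ ≤ _ := by gcongr
    have e2 : C / s ^ (d + 1) / h ≤ C * (1 / (τ ^ (d + 2) * h)) := by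
      have : 1 / (s ^ (d + 1) * h) ≤ 1 / (τ ^ (d + 2) * h) := by
        refine one_div_le_one_div_of_le (by positivity) ?_
        have e3 : τ ^ (d + 2) ≤ s ^ (d + 1) := by
          calc τ ^ (d + 2) = τ ^ (d + 1) * τ := pow_succ _ _
            _ ≤ s ^ (d + 1) * 1 := by gcongr
            _ = _ := mul_one _
        gcongr
      calc C / s ^ (d + 1) / h = C * (1 / (s ^ (d + 1) * h)) := by
            rw [div_div]
            ring
        _ ≤ _ := by gcongr
    have h6 : |II G (chh h) (fun z => fderiv ℝ φ z (bv a))| ≤ Cn * C * D := by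
      refine h5.trans ?_
      calc Cn * (C / s ^ (d + 2) * Ez G h Z + C / s ^ (d + 1) / h * In G h Z)
          ≤ Cn * (C * (1 / (τ ^ (d + 2) * h)) * Ez G h Z +
            C * (1 / (τ ^ (d + 2) * h)) * In G h Z) := by gcongr
        _ = Cn * C * D := by rw [hD]; ring
    calc B * |II G (chh h) (fun z => fderiv ℝ φ z (bv a))|
        ≤ 1 * |II G (chh h) (fun z => fderiv ℝ φ z (bv a))| :=
          mul_le_mul_of_nonneg_right hB1 (abs_nonneg _)
      _ ≤ _ := by rw [one_mul]; exact h6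
  -- change of the radius
  have hrad : ∀ (z₀ : E d) (s₀ s₁ : ℝ), τ ≤ s₀ → s₀ ≤ s₁ → ‖z₀‖ + s₁ ≤ Z →
      |ms G h z₀ s₁ - ms G h z₀ s₀| ≤ d * (Cn * C2) * D := by
    intro z₀ s₀ s₁ hs₀ hs₀₁ hs₁
    have hs00 : 0 < s₀ := by linarith
    have hn0 := norm_nonneg z₀
    have hd' : ∀ s : ℝ, 0 < s → ∃ φ : E d → ℝ, ContDiff ℝ 3 φ ∧ (∀ z, s ≤ ‖z - z₀‖ →
        fderiv ℝ φ z = 0 ∨ ∀ a : Fin d, fderiv ℝ φ z (bv a) = 0) ∧
        (∀ z, ‖fderiv ℝ φ z‖ ≤ C2 / s ^ (d + 1)) ∧
        (∀ z, ‖fderiv ℝ (fderiv ℝ φ) z‖ ≤ C2 / s ^ (d + 2)) ∧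
        ∀ z, HasDerivAt (fun s => bw z₀ s z) (- (s * lap φ z)) s := by
      intro s hs
      obtain ⟨-, φ, f1, -, -, f4, f5, f6, f7, -⟩ := hBWP z₀ s hs
      refine ⟨φ, f1, fun z hz => Or.inr fun a => ?_, f4, f5, f7⟩
      have e1 := f6 z a
      rw [(hBWF z₀ s hs).2.2.1 z hz, mul_zero] at e1
      rcases mul_eq_zero.mp e1 with e2 | e2
      · exact absurd e2 (by positivity)
      · exact e2
    have hlap : ∀ (φ : E d → ℝ) (s : ℝ) (z : E d), 0 < s →
        ‖fderiv ℝ (fderiv ℝ φ) z‖ ≤ C2 / s ^ (d + 2) → |lap φ z| ≤ d * (C2 / s ^ (d + 2)) := by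
      intro φ s z hs hb
      unfold lap
      refine (Finset.abs_sum_le_sum_abs _ _).trans ?_
      calc ∑ i : Fin d, |fderiv ℝ (fderiv ℝ φ) z (bv i) (bv i)|
          ≤ ∑ _i : Fin d, C2 / s ^ (d + 2) := by
            refine Finset.sum_le_sum fun i _ => ?_
            have h1 := (fderiv ℝ (fderiv ℝ φ) z (bv i)).le_opNorm (bv i)
            have h2 := (fderiv ℝ (fderiv ℝ φ) z).le_opNorm (bv i)
            rw [norm_bv, mul_one] at h1 h2
            exact h1.trans (h2.trans hb)
        _ = d * (C2 / s ^ (d + 2)) := by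
            rw [Finset.sum_const, Finset.card_univ, Fintype.card_fin, nsmul_eq_mul]
    have hp := path (G := G) (χ := chh h) hI hχ hχ1 (fun s => bw z₀ s)
      (fun s z => deriv (fun s => bw z₀ s z) s) s₀ s₁ (d * (Cn * C2) * D) hs₀₁ (Ioi 0) isOpen_Ioi
      (fun s hs => lt_of_lt_of_le hs00 hs.1) ?_ ?_ ?_
    · refine hp.trans ?_
      have hM : 0 ≤ d * (Cn * C2) * D := by positivity
      calc d * (Cn * C2) * D * (s₁ - s₀) ≤ d * (Cn * C2) * D * 1 := by
            gcongr
            linarith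
        _ = _ := mul_one _
    · intro s hs
      have hs' : 0 < s := hs
      obtain ⟨φ, f1, -, -, f5, f7⟩ := hd' s hs'
      obtain ⟨g1, g2, -⟩ := hBWF z₀ s hs'
      refine ⟨g1.continuous, ?_, ⟨C1 / s ^ d, fun z => ?_⟩, fun z => ?_⟩
      · have e1 : (fun z => deriv (fun s => bw z₀ s z) s) = fun z => - (s * lap φ z) := by
          funext z
          exact (f7 z).deriv
        rw [e1]
        have h2 : ContDiff ℝ 1 (fderiv ℝ (fderiv ℝ φ)) :=
          (f1.fderiv_right (m := 2) (by norm_num)).fderiv_right (m := 1) (by norm_num)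
        have h3 : Continuous (fderiv ℝ (fderiv ℝ φ)) := h2.continuous
        unfold lap
        refine (continuous_const.mul (continuous_finsetSum _ fun i _ => ?_)).neg
        exact (h3.clm_apply continuous_const).clm_apply continuous_const
      · rw [abs_of_nonneg (g2 z).1]
        exact (g2 z).2
      · rw [(f7 z).deriv]
        exact f7 z
    · intro s hs
      have hs' : 0 < s := hs
      refine ⟨2 * s * (d * (C2 / (s / 2) ^ (d + 2))), Ioo (s / 2) (2 * s),
        Ioo_mem_nhds (by linarith) (by linarith), ?_⟩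
      intro r hr z
      have hr0 : 0 < r := by linarith [hr.1]
      obtain ⟨φ, -, -, -, f5, f7⟩ := hd' r hr0
      rw [(f7 z).deriv, abs_neg, abs_mul, abs_of_pos hr0]
      have h1 := hlap φ r z hr0 (f5 z)
      have h2 : C2 / r ^ (d + 2) ≤ C2 / (s / 2) ^ (d + 2) := by
        have := hr.1.le
        gcongr
      have h3 : (d : ℝ) * (C2 / r ^ (d + 2)) ≤ d * (C2 / (s / 2) ^ (d + 2)) := by gcongr
      exact mul_le_mul hr.2.le (h1.trans h3) (abs_nonneg _) (by positivity)
    · intro s hs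
      have hs' : 0 < s := by linarith [hs.1]
      have hsτ : τ ≤ s := by linarith [hs.1]
      have hs1 : s ≤ 1 := by linarith [hs.2]
      obtain ⟨φ, f1, f3, f4, f5, f7⟩ := hd' s hs'
      have hfd : ContDiff ℝ 2 (fderiv ℝ φ) := f1.fderiv_right (m := 2) (by norm_num)
      have hψ : ∀ a : Fin d, ContDiff ℝ 2 (fun z => fderiv ℝ φ z (bv a)) := fun a =>
        hfd.clm_apply contDiff_const
      have hψd : ∀ (a : Fin d) (z v : E d), fderiv ℝ (fun z => fderiv ℝ φ z (bv a)) z v =
          fderiv ℝ (fderiv ℝ φ) z v (bv a) := by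
        intro a z v
        have h1 : DifferentiableAt ℝ (fderiv ℝ φ) z := (hfd.differentiable (by norm_num)) z
        rw [fderiv_clm_apply h1 (differentiableAt_const _)]
        simp
      have e1 : (fun z => deriv (fun s => bw z₀ s z) s) = fun z => ∑ a : Fin d, (-s) *
          (fun z => fderiv ℝ (fun z => fderiv ℝ φ z (bv a)) z (bv a)) z := by
        funext z
        rw [(f7 z).deriv]
        unfold lap
        rw [← Finset.mul_sum, neg_mul]
        congr 2
        exact Finset.sum_congr rfl fun a _ => (hψd a z (bv a)).symm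
      rw [e1]
      have hcont : ∀ a : Fin d, Continuous
          (fun z => fderiv ℝ (fun z => fderiv ℝ φ z (bv a)) z (bv a)) := fun a =>
        (((hψ a).continuous_fderiv (by norm_num))).clm_apply continuous_const
      have hnd : ∀ (a : Fin d) (z : E d), ‖fderiv ℝ (fun z => fderiv ℝ φ z (bv a)) z‖ ≤
          C2 / s ^ (d + 2) := by
        intro a z
        refine ContinuousLinearMap.opNorm_le_bound _ (by positivity) fun v => ?_
        rw [hψd]
        have h1 := (fderiv ℝ (fderiv ℝ φ) z v).le_opNorm (bv a)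
        have h2 := (fderiv ℝ (fderiv ℝ φ) z).le_opNorm v
        rw [norm_bv, mul_one] at h1
        exact h1.trans (h2.trans (mul_le_mul_of_nonneg_right (f5 z) (norm_nonneg _)))
      have hbd : ∀ (a : Fin d) (z : E d),
          |fderiv ℝ (fun z => fderiv ℝ φ z (bv a)) z (bv a)| ≤ C2 / s ^ (d + 2) := by
        intro a z
        have h1 := (fderiv ℝ (fun z => fderiv ℝ φ z (bv a)) z).le_opNorm (bv a)
        rw [norm_bv, mul_one] at h1
        exact h1.trans (hnd a z)
      rw [ii_sum hI hχ hχ1 _ (fun _ => -s) hcont (C2 / s ^ (d + 2)) hbd]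
      refine (Finset.abs_sum_le_sum_abs _ _).trans ?_
      calc ∑ a : Fin d, |(-s) * II G (chh h)
            (fun z => fderiv ℝ (fun z => fderiv ℝ φ z (bv a)) z (bv a))|
          ≤ ∑ _a : Fin d, Cn * C2 * D := by
            refine Finset.sum_le_sum fun a _ => ?_
            rw [abs_mul, abs_neg, abs_of_pos hs']
            refine hcns _ s s C2 a hC2.le hsτ hs1 ((hψ a).of_le (by norm_num)) ?_ hs'.le hs1 ?_
              (hnd a)
            · intro z hz
              have h1 : s ≤ ‖z - z₀‖ := by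
                have h2 := norm_sub_norm_le z z₀
                linarith [hs.2]
              rcases f3 z h1 with h2 | h2
              · rw [h2]; rfl
              · exact h2 a
            · intro z
              have h1 := (fderiv ℝ φ z).le_opNorm (bv a)
              rw [norm_bv, mul_one] at h1
              exact h1.trans (f4 z)
        _ = d * (Cn * C2) * D := by
            rw [Finset.sum_const, Finset.card_univ, Fintype.card_fin, nsmul_eq_mul]
            ring
  -- change of the centre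
  have htr : ∀ (z₀ v : E d) (s t : ℝ) (z : E d), bw (z₀ + s • v) t z = bw z₀ t (z - s • v) := by
    intro z₀ v s t z
    unfold bw
    congr 3
    abel
  have hcen : ∀ (z₀ z₁ : E d) (s : ℝ), τ ≤ s → ‖z₀‖ + s ≤ Z → ‖z₁‖ + s ≤ Z →
      |ms G h z₁ s - ms G h z₀ s| ≤ 2 * (d * (Cn * C1)) * D := by
    intro z₀ z₁ s hs hz₀ hz₁
    have hs0 : 0 < s := by linarith
    have hs1 : s ≤ 1 := by have := norm_nonneg z₀; linarith
    obtain ⟨v, hv⟩ : ∃ v, v = z₁ - z₀ := ⟨_, rfl⟩
    have hvn : ‖v‖ ≤ 2 := by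
      rw [hv]
      have := norm_sub_le z₁ z₀
      linarith
    have hfd : ∀ (r : ℝ) (z : E d), fderiv ℝ (bw (z₀ + r • v) s) z =
        fderiv ℝ (bw z₀ s) (z - r • v) := by
      intro r z
      have e1 : bw (z₀ + r • v) s = fun w => bw z₀ s (w - r • v) := funext fun w => htr _ _ _ _ _
      rw [e1, fderiv_comp_sub]
    have hp := path (G := G) (χ := chh h) hI hχ hχ1 (fun r => bw (z₀ + r • v) s)
      (fun r z => - fderiv ℝ (bw (z₀ + r • v) s) z v) 0 1 (2 * (d * (Cn * C1)) * D) zero_le_one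
      univ isOpen_univ (subset_univ _) ?_ ?_ ?_
    · have e1 : z₀ + (1 : ℝ) • v = z₁ := by rw [hv, one_smul]; abel
      have e0 : z₀ + (0 : ℝ) • v = z₀ := by rw [zero_smul, add_zero]
      rw [sub_zero, mul_one] at hp
      simp only [e1, e0] at hp
      exact hp
    · intro r _
      obtain ⟨g1, g2, -⟩ := hBWF (z₀ + r • v) s hs0
      refine ⟨g1.continuous, ?_, ⟨C1 / s ^ d, fun z => ?_⟩, fun z => ?_⟩
      · exact ((g1.continuous_fderiv (by norm_num)).clm_apply continuous_const).neg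
      · rw [abs_of_nonneg (g2 z).1]
        exact (g2 z).2
      · have h1 : HasFDerivAt (bw z₀ s) (fderiv ℝ (bw z₀ s) (z - r • v)) (z - r • v) :=
          (((hBWF z₀ s hs0).1.differentiable (by norm_num)) _).hasFDerivAt
        have h2 : HasDerivAt (fun r : ℝ => z - r • v) (- v) r := by
          have h3 : HasDerivAt (fun r : ℝ => r • v) ((1 : ℝ) • v) r :=
            (hasDerivAt_id r).smul_const v
          rw [one_smul] at h3
          exact h3.const_sub z
        have h4 := h1.comp_hasDerivAt r h2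
        rw [map_neg] at h4
        simp only [hfd]
        have e1 : (fun r : ℝ => bw (z₀ + r • v) s z) = bw z₀ s ∘ fun r : ℝ => z - r • v :=
          funext fun r => htr _ _ _ _ _
        rw [e1]
        exact h4
    · intro r _
      refine ⟨C1 / s ^ (d + 1) * ‖v‖, univ, Filter.univ_mem, fun r' _ z => ?_⟩
      rw [abs_neg]
      have h1 := (fderiv ℝ (bw (z₀ + r' • v) s) z).le_opNorm v
      exact h1.trans (mul_le_mul_of_nonneg_right ((hBWF (z₀ + r' • v) s hs0).2.2.2.2.1 z)
        (norm_nonneg _))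
    · intro r hr
      obtain ⟨g1, g2, g3, -, g5, -⟩ := hBWF (z₀ + r • v) s hs0
      have hzr : ‖z₀ + r • v‖ + s ≤ Z := by
        have e1 : z₀ + r • v = (1 - r) • z₀ + r • z₁ := by
          rw [hv, smul_sub, sub_smul, one_smul]
          abel
        rw [e1]
        have h1 := norm_add_le ((1 - r) • z₀) (r • z₁)
        rw [norm_smul, norm_smul, Real.norm_of_nonneg (by linarith [hr.2] : 0 ≤ 1 - r),
          Real.norm_of_nonneg hr.1] at h1
        have h2 : (1 - r) * ‖z₀‖ ≤ (1 - r) * (Z - s) :=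
          mul_le_mul_of_nonneg_left (by linarith) (by linarith [hr.2])
        have h3 : r * ‖z₁‖ ≤ r * (Z - s) := mul_le_mul_of_nonneg_left (by linarith) hr.1
        linarith
      have hsum : v = ∑ a : Fin d, v a • bv a := by
        have h1 := (EuclideanSpace.basisFun (Fin d) ℝ).sum_repr v
        simp only [EuclideanSpace.basisFun_repr, EuclideanSpace.basisFun_apply] at h1
        exact h1.symm
      have e1 : (fun z => - fderiv ℝ (bw (z₀ + r • v) s) z v) = fun z => ∑ a : Fin d,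
          (- v a) * (fun z => fderiv ℝ (bw (z₀ + r • v) s) z (bv a)) z := by
        funext z
        have h1 : fderiv ℝ (bw (z₀ + r • v) s) z v =
            ∑ a : Fin d, v a * fderiv ℝ (bw (z₀ + r • v) s) z (bv a) := by
          have h2 := congrArg (fderiv ℝ (bw (z₀ + r • v) s) z) hsum
          rw [map_sum] at h2
          exact h2.trans (Finset.sum_congr rfl fun a _ => by rw [map_smul, smul_eq_mul])
        show - fderiv ℝ (bw (z₀ + r • v) s) z v = _
        rw [h1, ← Finset.sum_neg_distrib]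
        exact Finset.sum_congr rfl fun a _ => by ring
      rw [e1]
      have hcont : ∀ a : Fin d, Continuous
          (fun z => fderiv ℝ (bw (z₀ + r • v) s) z (bv a)) := fun a =>
        (g1.continuous_fderiv (by norm_num)).clm_apply continuous_const
      have hbd : ∀ (a : Fin d) (z : E d),
          |fderiv ℝ (bw (z₀ + r • v) s) z (bv a)| ≤ C1 / s ^ (d + 1) := by
        intro a z
        have h1 := (fderiv ℝ (bw (z₀ + r • v) s) z).le_opNorm (bv a)
        rw [norm_bv, mul_one] at h1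
        exact h1.trans (g5 z)
      rw [ii_sum hI hχ hχ1 _ (fun a => - v a) hcont (C1 / s ^ (d + 1)) hbd]
      refine (Finset.abs_sum_le_sum_abs _ _).trans ?_
      calc ∑ a : Fin d, |(- v a) * II G (chh h) (fun z => fderiv ℝ (bw (z₀ + r • v) s) z (bv a))|
          ≤ ∑ _a : Fin d, 2 * (Cn * C1 * D) := by
            refine Finset.sum_le_sum fun a _ => ?_
            rw [abs_mul, abs_neg]
            have h1 : |v a| ≤ 2 := by
              have := PiLp.norm_apply_le v a
              rw [Real.norm_eq_abs] at this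
              linarith
            have hsp : s ^ (d + 1) ≤ s ^ d := pow_le_pow_of_le_one hs0.le hs1 (Nat.le_succ d)
            have hsp2 : s ^ (d + 2) ≤ s ^ (d + 1) := pow_le_pow_of_le_one hs0.le hs1 (Nat.le_succ _)
            have h2 := hcns (bw (z₀ + r • v) s) 1 s C1 a hC1.le hs hs1 (g1.of_le (by norm_num))
              (fun z hz => g3 z (by
                have h2 := norm_sub_norm_le z (z₀ + r • v)
                linarith)) zero_le_one le_rfl
              (fun z => by
                rw [abs_of_nonneg (g2 z).1]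
                exact (g2 z).2.trans (by gcongr))
              (fun z => (g5 z).trans (by gcongr))
            rw [one_mul] at h2
            have h3 : 0 ≤ |II G (chh h) (fun z => fderiv ℝ (bw (z₀ + r • v) s) z (bv a))| :=
              abs_nonneg _
            exact mul_le_mul h1 h2 h3 (by norm_num)
        _ = 2 * (d * (Cn * C1)) * D := by
            rw [Finset.sum_const, Finset.card_univ, Fintype.card_fin, nsmul_eq_mul]
            ring
  -- the three steps
  obtain ⟨t₂, ht₂⟩ : ∃ t₂, t₂ = min t t₁ := ⟨_, rfl⟩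
  have hl : t₂ ≤ t := by rw [ht₂]; exact min_le_left _ _
  have hr : t₂ ≤ t₁ := by rw [ht₂]; exact min_le_right _ _
  have hτ₂ : τ ≤ t₂ := by rw [ht₂]; exact le_min hτt hτt₁
  have k1 := hrad z₀ t₂ t hτ₂ hl hz₀
  have k2 := hcen z₀ z₁ t₂ hτ₂ (by linarith) (by linarith)
  have k3 := hrad z₁ t₂ t₁ hτ₂ hr hz₁
  have k4 : ms G h z₀ t - ms G h z₁ t₁ = (ms G h z₀ t - ms G h z₀ t₂) -
      (ms G h z₁ t₂ - ms G h z₀ t₂) - (ms G h z₁ t₁ - ms G h z₁ t₂) := by ring
  have k5 : (2 * (d * (Cn * C2)) + 2 * (d * (Cn * C1))) / (τ ^ (d + 2) * h) *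
      (Ez G h Z + In G h Z) = (d * (Cn * C2) * D + 2 * (d * (Cn * C1)) * D) +
        d * (Cn * C2) * D := by
    rw [hD]
    ring
  rw [k4, k5]
  refine (abs_sub _ _).trans ?_
  refine add_le_add ((abs_sub _ _).trans (add_le_add k1 k2)) k3

end

end Pool.Agent.H19.AN.MA1
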