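import Pool.Agent.H80.AN.TargetsA
import Pool.Agent.H87.AN.TargetsC

/-!
Row PKW of the board allh_modules: cells which are not pinched are summable.
-/

set_option autoImplicit false

namespace Pool.Agent.H19.AN

open MeasureTheory Metric Set Filter Topology Pool.Agent.H87.SN Pool.Agent.H87.SH Pool.Agent.H87.AX
open Pool.Agent.H22.AN
open scoped ContDiff RealInnerProductSpace ENNReal

/-- telescoping -/
theorem tele (g : ℕ → ℝ) (n K : ℕ) :
    ∑ i ∈ Finset.range n, (g i - g (i + K)) =
      ∑ l ∈ Finset.range K, (g l - g (n + l)) := by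
  have h1 : ∀ i, g i - g (i + K) = ∑ l ∈ Finset.range K, (g (i + l) - g (i + (l + 1))) := by
    intro i
    rw [Finset.sum_range_sub' (fun l => g (i + l)) K]
    simp
  simp_rw [h1]
  rw [Finset.sum_comm]
  refine Finset.sum_congr rfl fun l _ => ?_
  have h2 := Finset.sum_range_sub' (fun i => g (i + l)) n
  simp only [zero_add] at h2
  rw [← h2]
  refine Finset.sum_congr rfl fun i _ => ?_
  rw [show i + (l + 1) = i + 1 + l by ring]

/-- A ball is contained in a cube. -/
theorem vol_ball' {d : ℕ} (x : V d) {s : ℝ} (hs : 0 < s) :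
    volume (ball x s) ≤ ENNReal.ofReal ((2 * s) ^ (d + 2)) := by
  have hp := PiLp.volume_preserving_ofLp (Fin (d + 2))
  have hsub : ball x s ⊆ (WithLp.ofLp : V d → (Fin (d + 2) → ℝ)) ⁻¹'
      (ball (WithLp.ofLp x : Fin (d + 2) → ℝ) s) := by
    intro y hy
    rw [mem_preimage, mem_ball, dist_pi_lt_iff hs]
    intro i
    have h1 : dist (y i) (x i) ≤ dist y x := by
      rw [EuclideanSpace.dist_eq, Real.dist_eq]
      refine Real.le_sqrt_of_sq_le ?_
      have h2 := Finset.single_le_sum (f := fun j => dist (y j) (x j) ^ 2)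
        (fun j _ => sq_nonneg _) (Finset.mem_univ i)
      simpa [Real.dist_eq] using h2
    exact h1.trans_lt (mem_ball.mp hy)
  refine (measure_mono hsub).trans ?_
  rw [hp.measure_preimage measurableSet_ball.nullMeasurableSet, Real.volume_pi_ball _ hs]
  simp

section

variable {d : ℕ} (μ : Measure (V d)) (D : V d → ℝ≥0∞) (s : ℝ)

/-- the integrand -/
noncomputable def ig : V d × V d → ℝ≥0∞ := fun q => {q : V d × V d | dist q.2 q.1 < s}.indicator
  (fun q => D q.2) q

theorem ig_meas (hD : Measurable D) : Measurable (ig D s) := by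
  unfold ig
  apply (hD.comp measurable_snd).indicator
  exact measurableSet_lt (measurable_snd.dist measurable_fst) measurable_const

theorem ig_int (x : V d) : ∫⁻ p in ball x s, D p ∂μ = ∫⁻ p, ig D s (x, p) ∂μ := by
  rw [← lintegral_indicator measurableSet_ball]
  refine lintegral_congr fun p => ?_
  by_cases h : p ∈ ball x s
  · rw [indicator_of_mem h]
    unfold ig
    rw [indicator_of_mem]
    exact h
  · rw [indicator_of_notMem h]
    unfold ig
    rw [indicator_of_notMem]
    exact h

theorem toni [IsFiniteMeasure μ] (hD : Measurable D) (hs : 0 < s) (hs' : s ≤ 1 / 16) :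
    ∫⁻ x in ball (0 : V d) (7 / 4), ∫⁻ p in ball x s, D p ∂μ ≤
      ENNReal.ofReal ((2 * s) ^ (d + 2)) * ∫⁻ p in ball (0 : V d) (15 / 8), D p ∂μ := by
  rw [lintegral_congr fun x => ig_int μ D s x]
  rw [lintegral_lintegral_swap (f := fun x p => ig D s (x, p)) (ig_meas D s hD).aemeasurable]
  rw [← lintegral_const_mul _ hD, ← lintegral_indicator measurableSet_ball]
  refine lintegral_mono fun p => ?_
  by_cases hp : p ∈ ball (0 : V d) (15 / 8)
  · rw [indicator_of_mem hp]
    calc ∫⁻ x in ball (0 : V d) (7 / 4), ig D s (x, p)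
        ≤ ∫⁻ x, ig D s (x, p) := setLIntegral_le_lintegral _ _
      _ = ∫⁻ x, (ball p s).indicator (fun _ => D p) x := by
          refine lintegral_congr fun x => ?_
          unfold ig
          by_cases h : x ∈ ball p s
          · rw [indicator_of_mem h, indicator_of_mem]
            rw [mem_ball, dist_comm] at h
            exact h
          · rw [indicator_of_notMem h, indicator_of_notMem]
            rw [mem_ball, dist_comm] at h
            exact h
      _ = D p * volume (ball p s) := lintegral_indicator_const measurableSet_ball _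
      _ ≤ D p * ENNReal.ofReal ((2 * s) ^ (d + 2)) := by
          gcongr
          exact vol_ball' p hs
      _ = _ := mul_comm _ _
  · rw [indicator_of_notMem hp]
    have h0 : ∀ x ∈ ball (0 : V d) (7 / 4), ig D s (x, p) ≤ 0 := by
      intro x hx
      unfold ig
      rw [indicator_of_notMem]
      intro h
      apply hp
      rw [mem_ball] at hx ⊢
      have h1 : dist p x < s := h
      have h2 := dist_triangle p x 0
      linarith
    refine (setLIntegral_mono' measurableSet_ball h0).trans ?_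
    rw [lintegral_zero]

end

theorem main (hMUF : T_MUF) (hMNT : T_MNT) (d : ℕ) (Λ : ℝ) (K : ℕ) (hΛ : 0 ≤ Λ) (m : ℕ)
    (G : V d → V d →L[ℝ] E m) (hG : GD Λ G) (J : ℕ) (ν : ℝ) :
    ENNReal.ofReal ν * ∑ j ∈ Finset.Icc 4 J, bad G K ν j ≤
      ENNReal.ofReal (K * Λ * (2 ^ d * Λ)) := by
  obtain ⟨hfin, -, -, -, -, hcont⟩ := hMUF d m G hG.memG
  have hF : IsFiniteMeasure (mu G) := ⟨lt_top_iff_ne_top.2 hfin⟩
  have hsj : ∀ j, 0 < sj j := fun j => by unfold sj; positivity
  have hDm : ∀ s, Measurable fun p => ENNReal.ofReal (dr G K p s) := by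
    intro s
    apply ENNReal.measurable_ofReal.comp
    apply Continuous.measurable
    unfold dr th
    exact ((hcont _).div_const _).sub ((hcont _).div_const _)
  -- one scale
  have hone : ∀ j ∈ Finset.Icc 4 J, ENNReal.ofReal ν * bad G K ν j ≤
      ∫⁻ p in ball (0 : V d) (15 / 8), ENNReal.ofReal (dr G K p (sj j)) ∂(mu G) := by
    intro j hj
    have hj' := (Finset.mem_Icc.1 hj).1
    have hs := hsj j
    have hs16 : sj j ≤ 1 / 16 := by
      unfold sj
      calc (1 / 2 : ℝ) ^ j ≤ (1 / 2 : ℝ) ^ 4 :=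
            pow_le_pow_of_le_one (by norm_num) (by norm_num) (by omega)
        _ = 1 / 16 := by norm_num
    have hWm : Measurable fun x => Wc G K x (sj j) := by
      unfold Wc
      apply Measurable.const_mul
      have h1 : (fun x => ∫⁻ p in ball x (sj j / 64), ENNReal.ofReal (dr G K p (sj j)) ∂(mu G)) =
          fun x => ∫⁻ p, ig (fun p => ENNReal.ofReal (dr G K p (sj j))) (sj j / 64) (x, p)
            ∂(mu G) := funext fun x => ig_int _ _ _ x
      rw [h1]
      exact (ig_meas _ _ (hDm _)).lintegral_prod_right'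
    have h1 := mul_meas_ge_le_lintegral (μ := volume.restrict (ball (0 : V d) (7 / 4))) hWm
      (ENNReal.ofReal ν)
    rw [Measure.restrict_apply (measurableSet_le measurable_const hWm)] at h1
    have hset : {x : V d | x ∈ ball (0 : V d) (7 / 4) ∧ ENNReal.ofReal ν ≤ Wc G K x (sj j)} =
        {x | ENNReal.ofReal ν ≤ Wc G K x (sj j)} ∩ ball (0 : V d) (7 / 4) := by
      ext x
      exact and_comm
    unfold bad
    rw [hset]
    have h2 : ∫⁻ x in ball (0 : V d) (7 / 4), Wc G K x (sj j) ≤
        ENNReal.ofReal (sj j ^ 2) *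
          ∫⁻ p in ball (0 : V d) (15 / 8), ENNReal.ofReal (dr G K p (sj j)) ∂(mu G) := by
      unfold Wc
      rw [lintegral_const_mul']
      · calc ENNReal.ofReal (sj j ^ d)⁻¹ * ∫⁻ x in ball (0 : V d) (7 / 4),
              ∫⁻ p in ball x (sj j / 64), ENNReal.ofReal (dr G K p (sj j)) ∂(mu G)
            ≤ ENNReal.ofReal (sj j ^ d)⁻¹ * (ENNReal.ofReal ((2 * (sj j / 64)) ^ (d + 2)) *
              ∫⁻ p in ball (0 : V d) (15 / 8), ENNReal.ofReal (dr G K p (sj j)) ∂(mu G)) := by
              gcongr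
              exact toni (mu G) _ (sj j / 64) (hDm _) (by positivity) (by linarith)
          _ = ENNReal.ofReal ((sj j ^ d)⁻¹ * (2 * (sj j / 64)) ^ (d + 2)) *
              ∫⁻ p in ball (0 : V d) (15 / 8), ENNReal.ofReal (dr G K p (sj j)) ∂(mu G) := by
              rw [← mul_assoc, ← ENNReal.ofReal_mul (by positivity)]
          _ ≤ _ := by
              gcongr
              calc (sj j ^ d)⁻¹ * (2 * (sj j / 64)) ^ (d + 2)
                  ≤ (sj j ^ d)⁻¹ * (sj j) ^ (d + 2) := by
                    gcongr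
                    linarith
                _ = sj j ^ 2 := by
                    rw [pow_add]
                    field_simp
      · exact ENNReal.ofReal_ne_top
    calc ENNReal.ofReal ν * (ENNReal.ofReal ((sj j ^ 2)⁻¹) *
          volume ({x | ENNReal.ofReal ν ≤ Wc G K x (sj j)} ∩ ball (0 : V d) (7 / 4)))
        = ENNReal.ofReal ((sj j ^ 2)⁻¹) * (ENNReal.ofReal ν *
          volume ({x | ENNReal.ofReal ν ≤ Wc G K x (sj j)} ∩ ball (0 : V d) (7 / 4))) := by ring
      _ ≤ ENNReal.ofReal ((sj j ^ 2)⁻¹) * (ENNReal.ofReal (sj j ^ 2) *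
          ∫⁻ p in ball (0 : V d) (15 / 8), ENNReal.ofReal (dr G K p (sj j)) ∂(mu G)) := by
          gcongr ENNReal.ofReal ((sj j ^ 2)⁻¹) * ?_
          exact h1.trans h2
      _ = _ := by
          rw [← mul_assoc, ← ENNReal.ofReal_mul (by positivity),
            show (sj j ^ 2)⁻¹ * (sj j ^ 2) = 1 by field_simp, ENNReal.ofReal_one, one_mul]
  -- the drops
  have hdrop : ∀ p ∈ ball (0 : V d) (15 / 8),
      ∑ j ∈ Finset.Icc 4 J, ENNReal.ofReal (dr G K p (sj j)) ≤
        ENNReal.ofReal (K * Λ) := by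
    intro p hp
    obtain ⟨g, hg⟩ : ∃ g : ℕ → ℝ, ∀ i, g i = th G p (sj (4 + i)) := ⟨_, fun _ => rfl⟩
    have hball : ∀ i, ball p (sj (4 + i)) ⊆ ball 0 2 := by
      intro i
      apply ball_subset_ball'
      rw [mem_ball] at hp
      have h16 : sj (4 + i) ≤ 1 / 16 := by
        unfold sj
        calc (1 / 2 : ℝ) ^ (4 + i) ≤ (1 / 2 : ℝ) ^ 4 :=
              pow_le_pow_of_le_one (by norm_num) (by norm_num) (by omega)
          _ = 1 / 16 := by norm_num
      linarith
    have hanti : Antitone g := by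
      apply antitone_nat_of_succ_le
      intro i
      rw [hg, hg]
      have hlt : sj (4 + (i + 1)) < sj (4 + i) := by
        unfold sj
        exact pow_lt_pow_right_of_lt_one₀ (by norm_num) (by norm_num) (by omega)
      have h1 := (hMNT d m G hG.memG hG.stat p _ _ (hsj _) hlt (hball i)).2
      have h2 : 0 ≤ ∫ y in ball p (sj (4 + i)) \ ball p (sj (4 + (i + 1))),
          (‖y - p‖ ^ (d + 2))⁻¹ * ‖G y (y - p)‖ ^ 2 :=
        integral_nonneg fun y => by positivity
      linarith
    have hg0 : ∀ i, 0 ≤ g i := by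
      intro i
      rw [hg]
      unfold th
      have := (hsj (4 + i)).le
      exact div_nonneg measureReal_nonneg (by positivity)
    have hgΛ : g 0 ≤ Λ := by
      rw [hg]
      unfold th
      have h0 := hsj (4 + 0)
      rw [div_le_iff₀ (by positivity)]
      exact hG.den p _ (hsj _) (hball 0)
    have hdr : ∀ i, dr G K p (sj (4 + i)) = g i - g (i + K) := by
      intro i
      rw [hg, hg]
      unfold dr
      have e2 : sj (4 + i) / 2 ^ K = sj (4 + (i + K)) := by
        unfold sj
        rw [show 4 + (i + K) = (4 + i) + K by ring, pow_add (1 / 2 : ℝ) (4 + i), div_eq_mul_inv]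
        congr 1
        rw [one_div, inv_pow]
      rw [e2]
    have hsum : ∑ j ∈ Finset.Icc 4 J, ENNReal.ofReal (dr G K p (sj j)) =
        ∑ i ∈ Finset.range (J + 1 - 4), ENNReal.ofReal (g i - g (i + K)) := by
      rw [← Finset.Ico_add_one_right_eq_Icc, Finset.sum_Ico_eq_sum_range]
      exact Finset.sum_congr rfl fun i _ => by rw [hdr]
    rw [hsum, ← ENNReal.ofReal_sum_of_nonneg fun i _ => sub_nonneg.2 (hanti (Nat.le_add_right i K))]
    apply ENNReal.ofReal_le_ofReal
    rw [tele]
    calc ∑ l ∈ Finset.range K, (g l - g (J + 1 - 4 + l))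
        ≤ ∑ _l ∈ Finset.range K, Λ := by
          refine Finset.sum_le_sum fun l _ => ?_
          have h1 := hg0 (J + 1 - 4 + l)
          have h2 := hanti (Nat.zero_le l)
          linarith
      _ = K * Λ := by
          rw [Finset.sum_const, Finset.card_range, nsmul_eq_mul]
  have hmu : (mu G) (ball (0 : V d) (15 / 8)) ≤ ENNReal.ofReal (2 ^ d * Λ) := by
    have h1 : (mu G) (ball (0 : V d) (15 / 8)) ≤ (mu G) (ball (0 : V d) 2) :=
      measure_mono (ball_subset_ball (by norm_num))
    refine h1.trans ?_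
    have h2 := hG.den 0 2 (by norm_num) subset_rfl
    rw [← ENNReal.ofReal_toReal (measure_ne_top (mu G) (ball (0 : V d) 2))]
    apply ENNReal.ofReal_le_ofReal
    have h3 : (mu G).real (ball (0 : V d) 2) = ((mu G) (ball (0 : V d) 2)).toReal := rfl
    rw [← h3, mul_comm]
    exact h2
  rw [Finset.mul_sum]
  calc ∑ j ∈ Finset.Icc 4 J, ENNReal.ofReal ν * bad G K ν j
      ≤ ∑ j ∈ Finset.Icc 4 J,
        ∫⁻ p in ball (0 : V d) (15 / 8), ENNReal.ofReal (dr G K p (sj j)) ∂(mu G) :=
        Finset.sum_le_sum hone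
    _ = ∫⁻ p in ball (0 : V d) (15 / 8),
          ∑ j ∈ Finset.Icc 4 J, ENNReal.ofReal (dr G K p (sj j)) ∂(mu G) := by
        rw [lintegral_finsetSum _ fun j _ => hDm _]
    _ ≤ ∫⁻ _p in ball (0 : V d) (15 / 8), ENNReal.ofReal (K * Λ) ∂(mu G) :=
        setLIntegral_mono' measurableSet_ball hdrop
    _ = ENNReal.ofReal (K * Λ) * (mu G) (ball (0 : V d) (15 / 8)) := by
        rw [setLIntegral_const]
    _ ≤ ENNReal.ofReal (K * Λ) * ENNReal.ofReal (2 ^ d * Λ) := by gcongr
    _ = ENNReal.ofReal (K * Λ * (2 ^ d * Λ)) := by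
        rw [← ENNReal.ofReal_mul (by positivity)]

theorem pf_PKW (hMUF : T_MUF) (hMNT : T_MNT) : T_PKW := by
  intro d Λ ν K _ hΛ hν
  refine ⟨K * Λ * (2 ^ d * Λ) / ν, by positivity, fun m G hG J => ?_⟩
  have h := main hMUF hMNT d Λ K hΛ m G hG J ν
  rw [ENNReal.ofReal_div_of_pos hν, ENNReal.le_div_iff_mul_le (Or.inl (by simpa using hν))
    (Or.inl ENNReal.ofReal_ne_top), mul_comm]
  exact h

end Pool.Agent.H19.AN
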