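import Pool.Agent.H80.AN.TargetsA

/-!
Row VOL of the board allh_modules: the volume of the set of points of large density.
-/

set_option autoImplicit false

namespace Pool.Agent.H19.AN

open MeasureTheory Metric Set Filter Topology Pool.Agent.H87.SN Pool.Agent.H87.SH Pool.Agent.H87.AX
open Pool.Agent.H22.AN
open scoped ContDiff RealInnerProductSpace ENNReal

/-- A ball is contained in a cube. -/
theorem vol_ball {d : ℕ} (x : V d) {s : ℝ} (hs : 0 < s) :
    volume (ball x s) ≤ ENNReal.ofReal ((2 * s) ^ (d + 2)) := by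
  have hp := PiLp.volume_preserving_ofLp (Fin (d + 2))
  have hsub : ball x s ⊆ (WithLp.ofLp : V d → (Fin (d + 2) → ℝ)) ⁻¹'
      (ball (WithLp.ofLp x : Fin (d + 2) → ℝ) s) := by
    intro y hy
    rw [mem_preimage, mem_ball, dist_pi_lt_iff hs]
    intro i
    have h1 : dist (y i) (x i) ≤ dist y x := by
      rw [EuclideanSpace.dist_eq, Real.dist_eq]
      refine Real.le_sqrt_of_sq_le ?_
      have h2 := Finset.single_le_sum (f := fun j => dist (y j) (x j) ^ 2)
        (fun j _ => sq_nonneg _) (Finset.mem_univ i)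
      simpa [Real.dist_eq] using h2
    exact h1.trans_lt (mem_ball.mp hy)
  refine (measure_mono hsub).trans ?_
  rw [hp.measure_preimage measurableSet_ball.nullMeasurableSet, Real.volume_pi_ball _ hs]
  simp

theorem pf_VOL (hMUF : T_MUF) : T_VOL := by
  intro d m G hG e M c r s he hs hr hM
  obtain ⟨hfin, -, -, -, -, hcont⟩ := hMUF d m G hG
  have : IsFiniteMeasure (mu G) := ⟨lt_top_iff_ne_top.mpr hfin⟩
  obtain ⟨S, hS⟩ : ∃ S, S = {x | x ∈ ball c r ∧ e ≤ th G x s} := ⟨_, rfl⟩
  rw [← hS]
  have hSm : MeasurableSet S := by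
    rw [hS]
    have h1 : Continuous fun x => th G x s := by
      unfold th
      exact (hcont s).div_const (s ^ d)
    exact (measurableSet_ball).inter (measurableSet_le measurable_const h1.measurable)
  have h1 : ∀ x ∈ S, ENNReal.ofReal (e * s ^ d) ≤ mu G (ball x s) := by
    intro x hx
    rw [hS] at hx
    have h2 : e ≤ (mu G).real (ball x s) / s ^ d := hx.2
    rw [le_div_iff₀ (by positivity)] at h2
    rw [← ENNReal.ofReal_toReal (measure_ne_top (mu G) (ball x s))]
    exact ENNReal.ofReal_le_ofReal h2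
  have h2 : ENNReal.ofReal (e * s ^ d) * volume S ≤ ∫⁻ x in S, mu G (ball x s) := by
    rw [← setLIntegral_const]
    exact setLIntegral_mono' hSm h1
  have hmeas : MeasurableSet {p : V d × V d | dist p.2 p.1 < s} :=
    (isOpen_lt (continuous_snd.dist continuous_fst) continuous_const).measurableSet
  have h3 : ∫⁻ x in S, mu G (ball x s) =
      ∫⁻ y, (volume.restrict S) {x | dist y x < s} ∂(mu G) := by
    have e1 : ∀ x : V d, mu G (ball x s) =
        mu G (Prod.mk x ⁻¹' {p : V d × V d | dist p.2 p.1 < s}) := fun x => rfl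
    have e2 : ∀ y : V d, (volume.restrict S) {x | dist y x < s} =
        (volume.restrict S) ((fun x => (x, y)) ⁻¹' {p : V d × V d | dist p.2 p.1 < s}) :=
      fun y => rfl
    simp only [e1, e2]
    rw [← Measure.prod_apply hmeas, ← Measure.prod_apply_symm hmeas]
  have h4 : ∫⁻ y, (volume.restrict S) {x | dist y x < s} ∂(mu G) ≤
      ∫⁻ y, (ball c (r + s)).indicator (fun _ => ENNReal.ofReal ((2 * s) ^ (d + 2))) y ∂(mu G) := by
    refine lintegral_mono fun y => ?_
    by_cases hy : y ∈ ball c (r + s)
    · rw [indicator_of_mem hy]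
      refine (Measure.restrict_apply_le _ _).trans ?_
      have e3 : {x : V d | dist y x < s} = ball y s := by
        ext x
        rw [mem_ball, dist_comm]
        rfl
      rw [e3]
      exact vol_ball y hs
    · rw [indicator_of_notMem hy]
      refine le_of_eq ?_
      rw [Measure.restrict_apply' hSm]
      have e4 : {x : V d | dist y x < s} ∩ S = ∅ := by
        rw [eq_empty_iff_forall_notMem]
        rintro x ⟨hx1, hx2⟩
        rw [hS] at hx2
        refine hy (mem_ball.mpr ?_)
        have h5 : dist x c < r := mem_ball.mp hx2.1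
        have h6 : dist y x < s := hx1
        have := dist_triangle y x c
        linarith
      rw [e4, measure_empty]
  have h5 : ∫⁻ y, (ball c (r + s)).indicator (fun _ => ENNReal.ofReal ((2 * s) ^ (d + 2))) y ∂(mu G)
      ≤ ENNReal.ofReal ((2 * s) ^ (d + 2) * M) := by
    rw [lintegral_indicator measurableSet_ball, setLIntegral_const,
      ENNReal.ofReal_mul (show (0 : ℝ) ≤ (2 * s) ^ (d + 2) by positivity)]
    have h9 : mu G (ball c (r + s)) ≤ ENNReal.ofReal M := by
      rw [← ENNReal.ofReal_toReal (measure_ne_top (mu G) (ball c (r + s)))]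
      exact ENNReal.ofReal_le_ofReal hM
    exact mul_le_mul' le_rfl h9
  have h6 : ENNReal.ofReal (e * s ^ d) * volume S ≤ ENNReal.ofReal ((2 * s) ^ (d + 2) * M) :=
    h2.trans (h3.le.trans (h4.trans h5))
  have h7 : ENNReal.ofReal ((2 * s) ^ (d + 2) * M) =
      ENNReal.ofReal (e * s ^ d) * ENNReal.ofReal (2 ^ (d + 2) * M / e * s ^ 2) := by
    rw [← ENNReal.ofReal_mul (by positivity)]
    congr 1
    rw [mul_pow, pow_add s d 2]
    field_simp
  rw [h7] at h6
  have h8 : ENNReal.ofReal (e * s ^ d) ≠ 0 := by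
    rw [Ne, ENNReal.ofReal_eq_zero, not_le]
    positivity
  exact (ENNReal.mul_le_mul_iff_right h8 ENNReal.ofReal_ne_top).mp h6

end Pool.Agent.H19.AN
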